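import Pool.Agent.K1H80.KA.Stm

set_option autoImplicit false

/-! Project KA: the piece `ULT`. -/

namespace Pool.Agent.K1H78.KA

open Finset Pool.Agent.KA

section
variable {α ι Γ : Type} [DecidableEq α] [Fintype ι] [LinearOrderedCommGroupWithZero Γ]
  (a b : ι → α)

theorem inn_add (A : Finset α) (c c' : ι → ℤ) : inn a b A (c + c') = inn a b A c + inn a b A c' := by
  unfold inn
  rw [← Finset.sum_add_distrib]
  apply Finset.sum_congr rfl
  intro e _
  split_ifs <;> simp

/-- `inn` as a homomorphism -/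
def innH (A : Finset α) : (ι → ℤ) →+ ℤ where
  toFun := inn a b A
  map_zero' := by
    unfold inn
    simp
  map_add' := inn_add a b A

/-- the subgroup of the solutions of `Cond` -/
def CondS : List α → AddSubgroup (ι → ℤ)
  | [] => ⊤
  | x :: l => (innH a b (x :: l).toFinset).ker ⊓ CondS l

theorem mem_CondS (l : List α) (c : ι → ℤ) : c ∈ CondS a b l ↔ Cond a b l c := by
  induction l with
  | nil => simp [CondS, Cond]
  | cons x l ih =>
    rw [CondS, Cond, AddSubgroup.mem_inf, ih, AddMonoidHom.mem_ker]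
    rfl

/-- the product over the edges inside `A` -/
def pr (d : α → α → Γ) (A : Finset α) (c : ι → ℤ) : Γ :=
  ∏ e, if a e ∈ A ∧ b e ∈ A then d (a e) (b e) ^ c e else 1

theorem pr_zero (d : α → α → Γ) (A : Finset α) : pr a b d A 0 = 1 := by
  unfold pr
  apply Finset.prod_eq_one
  intro e _
  simp

theorem pr_add (hab : ∀ e, a e ≠ b e) (d : α → α → Γ) (hdn : ∀ x y, x ≠ y → d x y ≠ 0)
    (A : Finset α) (c c' : ι → ℤ) : pr a b d A (c + c') = pr a b d A c * pr a b d A c' := by
  unfold pr
  rw [← Finset.prod_mul_distrib]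
  apply Finset.prod_congr rfl
  intro e _
  split_ifs
  · rw [Pi.add_apply, zpow_add₀ (hdn _ _ (hab e))]
  · rw [one_mul]

/-- the subgroup `pr = 1` -/
def prS (hab : ∀ e, a e ≠ b e) (d : α → α → Γ) (hdn : ∀ x y, x ≠ y → d x y ≠ 0)
    (A : Finset α) : AddSubgroup (ι → ℤ) where
  carrier := {c | pr a b d A c = 1}
  zero_mem' := pr_zero a b d A
  add_mem' := by
    intro c c' hc hc'
    change pr a b d A (c + c') = 1
    rw [pr_add a b hab d hdn, hc, hc', one_mul]
  neg_mem' := by
    intro c hc
    change pr a b d A (-c) = 1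
    have h := pr_add a b hab d hdn A (-c) c
    rw [neg_add_cancel, pr_zero, hc, mul_one] at h
    exact h.symm

omit [Fintype ι] in
theorem zpow_sum (D : Γ) (hD : D ≠ 0) (s : Finset ι) (f : ι → ℤ) :
    ∏ e ∈ s, D ^ f e = D ^ (∑ e ∈ s, f e) := by
  classical
  induction s using Finset.induction_on with
  | empty => simp
  | insert x s hx ih => rw [prod_insert hx, sum_insert hx, zpow_add₀ hD, ih]

theorem pr_split (d : α → α → Γ) (hds : ∀ x y, d x y = d y x) (D : Γ) (hD : D ≠ 0)
    (L P Q : Finset α) (hL : ∀ x, x ∈ L ↔ x ∈ P ∨ x ∈ Q) (hdis : ∀ x, x ∈ P → x ∉ Q)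
    (hPQ : ∀ p ∈ P, ∀ q ∈ Q, d p q = D) (c : ι → ℤ) :
    pr a b d L c = pr a b d P c * pr a b d Q c *
      D ^ (inn a b L c - inn a b P c - inn a b Q c) := by
  unfold pr inn
  rw [← Finset.sum_sub_distrib, ← Finset.sum_sub_distrib, ← zpow_sum D hD,
    ← Finset.prod_mul_distrib, ← Finset.prod_mul_distrib]
  apply Finset.prod_congr rfl
  intro e _
  by_cases haP : a e ∈ P
  · have haQ := hdis _ haP
    have haL := (hL _).2 (Or.inl haP)
    by_cases hbP : b e ∈ P
    · have hbQ := hdis _ hbP
      have hbL := (hL _).2 (Or.inl hbP)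
      simp [haP, haQ, haL, hbP, hbQ, hbL]
    · by_cases hbQ : b e ∈ Q
      · have hbL := (hL _).2 (Or.inr hbQ)
        simp [haP, haQ, haL, hbP, hbQ, hbL, hPQ _ haP _ hbQ]
      · have hbL : b e ∉ L := fun h => ((hL _).1 h).elim hbP hbQ
        simp [haP, haQ, haL, hbP, hbQ, hbL]
  · by_cases haQ : a e ∈ Q
    · have haL := (hL _).2 (Or.inr haQ)
      by_cases hbP : b e ∈ P
      · have hbQ := hdis _ hbP
        have hbL := (hL _).2 (Or.inl hbP)
        have h1 : d (a e) (b e) = D := by rw [hds]; exact hPQ _ hbP _ haQ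
        simp [haP, haQ, haL, hbP, hbQ, hbL, h1]
      · by_cases hbQ : b e ∈ Q
        · have hbL := (hL _).2 (Or.inr hbQ)
          simp [haP, haQ, haL, hbP, hbQ, hbL]
        · have hbL : b e ∉ L := fun h => ((hL _).1 h).elim hbP hbQ
          simp [haP, haQ, haL, hbP, hbQ, hbL]
    · have haL : a e ∉ L := fun h => ((hL _).1 h).elim haP haQ
      simp [haP, haQ, haL]

theorem inn_of_Cond (l : List α) (hl : l ≠ []) (c : ι → ℤ) (h : Cond a b l c) :
    inn a b l.toFinset c = 0 := by
  cases l with
  | nil => exact absurd rfl hl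
  | cons x l => exact h.1

end

theorem ult (hM : MERGEStm) : ULTStm := by
  intro α ι Γ _ _ _ a b hab d hd0 hds hdn hdt L
  obtain ⟨n, hn⟩ : ∃ n, L.card = n := ⟨_, rfl⟩
  induction n using Nat.strong_induction_on generalizing L with
  | _ n ih =>
    intro hL W hW
    obtain ⟨i0, hi0⟩ := hL
    by_cases h1 : ∃ j ∈ L, j ≠ i0
    · obtain ⟨j1, hj1, hne⟩ := h1
      obtain ⟨j0, hj0, hmax⟩ := L.exists_max_image (fun j => d i0 j) ⟨i0, hi0⟩
      set D : Γ := d i0 j0 with hD
      have hD0 : 0 < D := lt_of_lt_of_le (zero_lt_iff.2 (hdn i0 j1 hne.symm)) (hmax j1 hj1)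
      set P := L.filter (fun j => d i0 j < D) with hP
      set Q := L.filter (fun j => d i0 j = D) with hQ
      have hiP : i0 ∈ P := by
        rw [hP, Finset.mem_filter, hd0]
        exact ⟨hi0, hD0⟩
      have hjQ : j0 ∈ Q := by
        rw [hQ, Finset.mem_filter]
        exact ⟨hj0, rfl⟩
      have hdis : ∀ x, x ∈ P → x ∉ Q := by
        intro x hx hx'
        rw [hP, Finset.mem_filter] at hx
        rw [hQ, Finset.mem_filter] at hx'
        exact hx.2.ne hx'.2
      have hLPQ : ∀ x, x ∈ L ↔ x ∈ P ∨ x ∈ Q := by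
        intro x
        rw [hP, hQ, Finset.mem_filter, Finset.mem_filter]
        constructor
        · intro hx
          rcases lt_or_eq_of_le (hmax x hx) with h2 | h2
          · exact Or.inl ⟨hx, h2⟩
          · exact Or.inr ⟨hx, h2⟩
        · rintro (h2 | h2) <;> exact h2.1
      have hPQ : ∀ p ∈ P, ∀ q ∈ Q, d p q = D := by
        intro p hp q hq
        have hp2 := (Finset.mem_filter.1 (hP ▸ hp)).2
        have hq2 := (Finset.mem_filter.1 (hQ ▸ hq)).2
        apply le_antisymm
        · refine (hdt p i0 q).trans (max_le ?_ hq2.le)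
          rw [hds]
          exact hp2.le
        · by_contra hc
          push Not at hc
          have h3 := hdt i0 p q
          rw [hq2] at h3
          exact absurd (lt_of_le_of_lt h3 (max_lt hp2 hc)) (lt_irrefl _)
      have hPcard : P.card < n := by
        rw [← hn]
        apply Finset.card_lt_card
        refine ⟨Finset.filter_subset _ _, fun h => ?_⟩
        exact hdis _ (h hj0) hjQ
      have hQcard : Q.card < n := by
        rw [← hn]
        apply Finset.card_lt_card
        refine ⟨Finset.filter_subset _ _, fun h => ?_⟩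
        exact hdis _ hiP (h hi0)
      have hsplit := pr_split a b d hds D hD0.ne' L P Q hLPQ hdis hPQ
      -- the first list
      obtain ⟨A, hA1, hA2, hA3⟩ := ih P.card hPcard P rfl ⟨i0, hiP⟩
        (W ⊓ (innH a b L).ker ⊓ (innH a b P).ker ⊓ (innH a b Q).ker ⊓ prS a b hab d hdn Q) (by
          intro c hc hc1
          simp only [AddSubgroup.mem_inf, AddMonoidHom.mem_ker] at hc
          obtain ⟨⟨⟨⟨hcW, hcL⟩, hcP⟩, hcQ⟩, hcq⟩ := hc
          apply hW c hcW
          have h2 := hsplit c
          have e1 : inn a b L c = 0 := hcL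
          have e2 : inn a b P c = 0 := hcP
          have e3 : inn a b Q c = 0 := hcQ
          have e4 : pr a b d Q c = 1 := hcq
          have e5 : pr a b d P c = 1 := hc1
          rw [e1, e2, e3, e4, e5] at h2
          have h3 : pr a b d L c = 1 := by rw [h2]; simp
          exact h3)
      have hA0 : A ≠ [] := by
        rintro rfl
        rw [← hA2] at hiP
        simp at hiP
      obtain ⟨B, hB1, hB2, hB3⟩ := ih Q.card hQcard Q rfl ⟨j0, hjQ⟩
        (W ⊓ (innH a b L).ker ⊓ (innH a b Q).ker ⊓ CondS a b A) (by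
          intro c hc hc1
          simp only [AddSubgroup.mem_inf, AddMonoidHom.mem_ker] at hc
          obtain ⟨⟨⟨hcW, hcL⟩, hcQ⟩, hcA⟩ := hc
          rw [mem_CondS] at hcA
          refine hA3 c ?_ hcA
          simp only [AddSubgroup.mem_inf, AddMonoidHom.mem_ker]
          refine ⟨⟨⟨⟨hcW, hcL⟩, ?_⟩, hcQ⟩, hc1⟩
          have := inn_of_Cond a b A hA0 c hcA
          rw [hA2] at this
          exact this)
      have hB0 : B ≠ [] := by
        rintro rfl
        rw [← hB2] at hjQ
        simp at hjQ
      have hAB : (A ++ B).Nodup := by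
        rw [List.nodup_append']
        refine ⟨hA1, hB1, ?_⟩
        intro x hx hx'
        refine hdis x ?_ ?_
        · rw [← hA2]
          exact List.mem_toFinset.2 hx
        · rw [← hB2]
          exact List.mem_toFinset.2 hx'
      have hABL : (A ++ B).toFinset = L := by
        ext x
        rw [List.toFinset_append, Finset.mem_union, hA2, hB2, hLPQ]
      obtain ⟨l, hl1, hl2⟩ := hM α ι a b hab A B hA0 hB0 hAB W (by
        intro c hcW hcA hcB hcL
        refine hB3 c ?_ hcB
        simp only [AddSubgroup.mem_inf, AddMonoidHom.mem_ker]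
        rw [mem_CondS]
        rw [hABL] at hcL
        refine ⟨⟨⟨hcW, hcL⟩, ?_⟩, hcA⟩
        have := inn_of_Cond a b B hB0 c hcB
        rw [hB2] at this
        exact this)
      refine ⟨l, hl1.nodup_iff.2 hAB, ?_, hl2⟩
      rw [← hABL]
      exact List.toFinset_eq_of_perm _ _ hl1
    · push Not at h1
      refine ⟨[i0], List.nodup_singleton _, ?_, fun c hc _ => hW c hc ?_⟩
      · ext x
        simp only [List.mem_toFinset, List.mem_singleton]
        constructor
        · rintro rfl
          exact hi0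
        · exact h1 x
      · apply Finset.prod_eq_one
        intro e _
        rw [if_neg]
        rintro ⟨h2, h3⟩
        exact hab e ((h1 _ h2).trans (h1 _ h3).symm)

end Pool.Agent.K1H78.KA
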